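import Pool.Agent.D0H75.LF.Defs

/-!
# LFE: a Lefschetz decomposition gives the regularity of the powers of `L` (module of `D0H75.LF`)
-/

set_option autoImplicit false

namespace Pool.Agent.D0H42.LF

open Finset Pool.Agent.D0H75.LF

theorem pow_mem {A : Type*} [Ring A] (D : ℤ → AddSubgroup A) (h1 : (1 : A) ∈ D 0)
    (hm : ∀ i j x y, x ∈ D i → y ∈ D j → x * y ∈ D (i + j)) (L : A) (hL : L ∈ D 1) (m : ℕ) : L ^ m ∈ D m := by
  induction m with
  | zero => simpa using h1
  | succ m ih =>
    rw [pow_succ]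
    have h2 := hm m 1 _ _ ih hL
    push_cast
    exact h2

/-- **LFE (converse).** -/
theorem LFE {A : Type*} [Ring A] (D : ℤ → AddSubgroup A) (h1 : (1 : A) ∈ D 0)
    (hm : ∀ i j x y, x ∈ D i → y ∈ D j → x * y ∈ D (i + j)) (L : A) (hL : L ∈ D 1)
    (d : ℕ) (p : ℕ → A) (h : IsLef D L d p) (k : ℕ) (hk : k ≤ d) :
    ∃ Λ ∈ D (-(k : ℤ)), L ^ k * Λ * L ^ k = L ^ k := by
  have hc : ∀ m i, L ^ m * p i = p (i + 2 * m) * L ^ m := by
    intro m
    induction m with
    | zero => intro i; simp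
    | succ m ih =>
      intro i
      rw [pow_succ, mul_assoc, h.comm, ← mul_assoc, ih, mul_assoc,
        show i + 2 + 2 * m = i + 2 * (m + 1) by ring]
  have hex : ∀ i, ∃ c ∈ D (-(k : ℤ)), L ^ k * (c * p (i + 2 * k)) * L ^ k = L ^ k * p i := by
    intro i
    rcases le_or_gt (i + k) d with hi | hi
    · obtain ⟨t, ht, h2, -⟩ := h.hl i (by omega)
      refine ⟨t * L ^ (d - i - k), ?_, ?_⟩
      · have h3 := hm _ _ _ _ ht (pow_mem D h1 hm L hL (d - i - k))
        have e : (-((d : ℤ) - i)) + ((d - i - k : ℕ) : ℤ) = -(k : ℤ) := by omega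
        rwa [e] at h3
      · have e2 : L ^ (d - i - k) * L ^ k = L ^ (d - i) := by
          rw [← pow_add]
          congr 1
          omega
        calc L ^ k * (t * L ^ (d - i - k) * p (i + 2 * k)) * L ^ k
            = L ^ k * (t * (L ^ (d - i - k) * (p (i + 2 * k) * L ^ k))) := by simp only [mul_assoc]
          _ = L ^ k * (t * (L ^ (d - i - k) * (L ^ k * p i))) := by rw [hc k i]
          _ = L ^ k * (t * (L ^ (d - i) * p i)) := by rw [← mul_assoc (L ^ (d - i - k)), e2]
          _ = L ^ k * p i := by rw [← mul_assoc t, h2]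
    · rcases le_or_gt (i + 2 * k) (2 * d) with hi2 | hi2
      · obtain ⟨t, ht, -, h2⟩ := h.hl (2 * d - (i + 2 * k)) (by omega)
        refine ⟨L ^ (d - (2 * d - (i + 2 * k)) - k) * t, ?_, ?_⟩
        · have h3 := hm _ _ _ _ (pow_mem D h1 hm L hL (d - (2 * d - (i + 2 * k)) - k)) ht
          have e : (((d - (2 * d - (i + 2 * k)) - k : ℕ)) : ℤ) +
              (-((d : ℤ) - ((2 * d - (i + 2 * k) : ℕ) : ℤ))) = -(k : ℤ) := by omega
          rwa [e] at h3
        · have e1 : 2 * d - (2 * d - (i + 2 * k)) = i + 2 * k := by omega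
          rw [e1] at h2
          have e2 : L ^ k * L ^ (d - (2 * d - (i + 2 * k)) - k) = L ^ (d - (2 * d - (i + 2 * k))) := by
            rw [← pow_add]
            congr 1
            omega
          calc L ^ k * (L ^ (d - (2 * d - (i + 2 * k)) - k) * t * p (i + 2 * k)) * L ^ k
              = (L ^ k * L ^ (d - (2 * d - (i + 2 * k)) - k)) * t * p (i + 2 * k) * L ^ k := by
                simp only [mul_assoc]
            _ = p (i + 2 * k) * L ^ k := by rw [e2, h2]
            _ = L ^ k * p i := (hc k i).symm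
      · refine ⟨0, (D _).zero_mem, ?_⟩
        rw [zero_mul, mul_zero, zero_mul, hc k i, h.out _ hi2, zero_mul]
  choose c hcD hcE using hex
  refine ⟨∑ i ∈ range (2 * d + 1), c i * p (i + 2 * k), ?_, ?_⟩
  · refine sum_mem fun i _ => ?_
    have h3 := hm _ _ _ _ (hcD i) (h.mem (i + 2 * k))
    rwa [add_zero] at h3
  · rw [mul_sum, sum_mul, sum_congr rfl fun i _ => hcE i, ← mul_sum, h.sum, mul_one]

end Pool.Agent.D0H42.LF
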